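import Pool.Agent.Run7.h940.PACH.Iface

/-!
# Piece ETA of the project PACH (helper940)
-/

set_option autoImplicit false

open Finset Filter Topology

namespace Run7.h160.PACH

open Run7.h940.PACH

/-- compactness for one set of indices -/
theorem eta_one {d : ℕ} {A : Type} (S : Finset A) (K : A → Set (EuclideanSpace ℝ (Fin d)))
    (hS : S.Nonempty) (hK : ∀ a ∈ S, IsCompact (K a) ∧ (K a).Nonempty)
    (hem : ∀ p, ∃ a ∈ S, p ∉ K a) :
    ∃ η : ℝ, 0 < η ∧ ∀ p, ∃ a ∈ S, η < Metric.infDist p (K a) := by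
  classical
  obtain ⟨a0, ha0⟩ := hS
  obtain ⟨hK0, hne0⟩ := hK a0 ha0
  have hf : Continuous (fun p => ∑ a ∈ S, Metric.infDist p (K a)) :=
    continuous_finsetSum _ fun a _ => Metric.continuous_infDist_pt _
  have hcomp : IsCompact {p : EuclideanSpace ℝ (Fin d) | Metric.infDist p (K a0) ≤ 1} := by
    obtain ⟨r, hr⟩ := hK0.isBounded.subset_closedBall 0
    refine (isCompact_closedBall (0 : EuclideanSpace ℝ (Fin d)) (r + 1)).of_isClosed_subset
      (isClosed_le (Metric.continuous_infDist_pt _) continuous_const) ?_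
    intro p hp
    obtain ⟨y, hy, hyd⟩ := hK0.exists_infDist_eq_dist hne0 p
    have h1 := hr hy
    rw [Metric.mem_closedBall] at h1 ⊢
    have h2 : Metric.infDist p (K a0) ≤ 1 := hp
    have h3 := dist_triangle p y 0
    linarith
  have hne : {p : EuclideanSpace ℝ (Fin d) | Metric.infDist p (K a0) ≤ 1}.Nonempty := by
    obtain ⟨y, hy⟩ := hne0
    refine ⟨y, ?_⟩
    change Metric.infDist y (K a0) ≤ 1
    rw [Metric.infDist_zero_of_mem hy]
    exact zero_le_one
  obtain ⟨q, hq, hmin⟩ := hcomp.exists_isMinOn hne hf.continuousOn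
  have hpos : 0 < ∑ a ∈ S, Metric.infDist q (K a) := by
    obtain ⟨a, ha, hqa⟩ := hem q
    have h1 : 0 < Metric.infDist q (K a) := by
      obtain ⟨hc, hn⟩ := hK a ha
      exact (hc.isClosed.notMem_iff_infDist_pos hn).1 hqa
    exact Finset.sum_pos' (fun b _ => Metric.infDist_nonneg) ⟨a, ha, h1⟩
  set m := ∑ a ∈ S, Metric.infDist q (K a) with hm
  have hcard : (0 : ℝ) < (S.card : ℝ) + 1 := by positivity
  refine ⟨min 1 (m / (S.card + 1)), lt_min one_pos (div_pos hpos hcard), fun p => ?_⟩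
  by_contra hcon
  push Not at hcon
  have h1 : Metric.infDist p (K a0) ≤ 1 := (hcon a0 ha0).trans (min_le_left _ _)
  have h2 : m ≤ ∑ a ∈ S, Metric.infDist p (K a) := hmin h1
  have h3 : ∑ a ∈ S, Metric.infDist p (K a) ≤ S.card * (m / (S.card + 1)) := by
    calc ∑ a ∈ S, Metric.infDist p (K a) ≤ ∑ _a ∈ S, (m / ((S.card : ℝ) + 1)) :=
          Finset.sum_le_sum fun a ha => (hcon a ha).trans (min_le_right _ _)
      _ = S.card * (m / (S.card + 1)) := by rw [Finset.sum_const, nsmul_eq_mul]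
  have h4 : (S.card : ℝ) * (m / (S.card + 1)) < m := by
    have h5 : (S.card : ℝ) * (m / (S.card + 1)) = m - m / (S.card + 1) := by
      field_simp
      ring
    have h6 : 0 < m / ((S.card : ℝ) + 1) := div_pos hpos hcard
    linarith
  linarith

theorem t_ETA : S_ETA := by
  classical
  intro d A T K N hK hN
  have key : ∀ S ∈ T.powerset.filter (fun S => N ≤ S.card), ∀ᶠ η : ℝ in 𝓝[>] 0,
      ∀ p, ∃ a ∈ S, η < Metric.infDist p (K a) := by
    intro S hS
    rw [Finset.mem_filter, Finset.mem_powerset] at hS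
    have hN0 : 0 < N := lt_of_le_of_lt (Nat.zero_le _) (hN 0)
    have hSne : S.Nonempty := by
      rw [← Finset.card_pos]
      omega
    obtain ⟨η, h0, h1⟩ := eta_one S K hSne (fun a ha => hK a (hS.1 ha)) (by
      intro p
      by_contra hcon
      push Not at hcon
      have h2 : S.card ≤ ({a ∈ (T : Set A) | p ∈ K a}).ncard := by
        rw [← Set.ncard_coe_finset]
        refine Set.ncard_le_ncard (fun a ha => ⟨hS.1 ha, hcon a ha⟩) ?_
        exact T.finite_toSet.subset fun a ha => ha.1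
      have := hN p
      omega)
    filter_upwards [Ioo_mem_nhdsGT h0] with η' hη' p
    obtain ⟨a, ha, h3⟩ := h1 p
    exact ⟨a, ha, hη'.2.trans h3⟩
  rw [← Filter.eventually_all_finset] at key
  obtain ⟨η, h1, h2⟩ := (key.and self_mem_nhdsWithin).exists
  refine ⟨η, h2, fun p => ?_⟩
  by_contra hcon
  rw [not_lt] at hcon
  have h3 : ({a ∈ (T : Set A) | Metric.infDist p (K a) ≤ η}) =
      ((T.filter fun a => Metric.infDist p (K a) ≤ η : Finset A) : Set A) := by
    ext a
    simp
  rw [h3, Set.ncard_coe_finset] at hcon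
  obtain ⟨a, ha, h4⟩ := h1 (T.filter fun a => Metric.infDist p (K a) ≤ η)
    (by
      rw [Finset.mem_filter, Finset.mem_powerset]
      exact ⟨Finset.filter_subset _ _, hcon⟩) p
  rw [Finset.mem_filter] at ha
  exact absurd ha.2 (not_le.2 h4)

end Run7.h160.PACH
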