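import Pool.Agent.Run7.h940.PACH.Iface
import Pool.Agent.H15.Brouwer

/-!
# Piece SEL of the project PACH (helper940): the coloured first selection
-/

set_option autoImplicit false

open Finset Filter Topology

namespace Run7.h160.PACH

open Run7.h940.PACH

theorem t_SEL (hF : S_FLAG) (hG : S_GMAP) (hE : S_ETA) : S_SEL := by
  classical
  intro d
  set D : ℕ := 2 ^ d * d.factorial with hD
  have hD0 : 0 < D := by positivity
  have hD1 : (0 : ℝ) < (D : ℝ) := by exact_mod_cast hD0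
  refine ⟨1 / (D : ℝ), by positivity, fun C hC => ?_⟩
  by_contra hcon
  push Not at hcon
  set N : ℕ := (Fintype.piFinset C).card with hN
  have hNprod : (∏ i, ((C i).card : ℝ)) = (N : ℝ) := by
    rw [hN, Fintype.card_piFinset]
    push_cast
    rfl
  obtain ⟨η, hη, hη1⟩ := hE d (Fin (d + 1) → EuclideanSpace ℝ (Fin d)) (Fintype.piFinset C)
    (fun x => convexHull ℝ (Set.range x)) ⌈1 / (D : ℝ) * (N : ℝ)⌉₊
    (fun x _ => ⟨(Set.finite_range x).isCompact_convexHull ℝ,
      (Set.range_nonempty x).convexHull⟩)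
    (fun p => by
      rw [Nat.lt_ceil, ← hNprod]
      exact hcon p)
  set h : ℝ := η / ((d : ℝ) + 1) with hh
  have hd1 : (0 : ℝ) < (d : ℝ) + 1 := by positivity
  have hh0 : 0 < h := div_pos hη hd1
  have hhη : h * ((d : ℝ) + 1) = η := by
    rw [hh]
    field_simp
  let pt : (Fin d → ℤ) → EuclideanSpace ℝ (Fin d) := fun v => WithLp.toLp 2 fun i => h * (v i : ℝ)
  obtain ⟨x, hx1, hx2⟩ := hF d (EuclideanSpace ℝ (Fin d)) C
    (fun v => {y | Metric.infDist (pt v) (convexHull ℝ (Set.range y)) ≤ η}) hC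
    (fun v => by
      have h1 := hη1 (pt v)
      rw [Nat.lt_ceil] at h1
      have h2 : (D : ℝ) * (({y ∈ (Fintype.piFinset C :
          Set (Fin (d + 1) → EuclideanSpace ℝ (Fin d))) |
          Metric.infDist (pt v) (convexHull ℝ (Set.range y)) ≤ η}).ncard : ℝ) < (N : ℝ) := by
        have h3 := mul_lt_mul_of_pos_left h1 hD1
        have h4 : (D : ℝ) * (1 / (D : ℝ) * (N : ℝ)) = N := by field_simp
        rw [h4] at h3
        exact h3
      exact_mod_cast h2)
  obtain ⟨G, hGc, hG1⟩ := hG d (EuclideanSpace ℝ (Fin d)) x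
  have hsub : ∀ w : Fin (d + 1) → (Fin d → ℤ), IsFlag w →
      Set.range (fun j => x (w j)) ⊆ ((Finset.univ.biUnion C : Finset _) : Set _) := by
    rintro w hw _ ⟨j, rfl⟩
    rw [Finset.mem_coe, Finset.mem_biUnion]
    exact ⟨j, Finset.mem_univ _, hx1 _ j (hw.1 j)⟩
  have hcomp : IsCompact (convexHull ℝ ((Finset.univ.biUnion C :
      Finset (EuclideanSpace ℝ (Fin d))) : Set (EuclideanSpace ℝ (Fin d)))) :=
    (Finset.finite_toSet _).isCompact_convexHull ℝ
  obtain ⟨R, hR⟩ := hcomp.isBounded.subset_closedBall 0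
  have hTc : Continuous (fun p : EuclideanSpace ℝ (Fin d) => G (fun i => h⁻¹ * p i)) :=
    hGc.comp (by fun_prop)
  obtain ⟨p, hp⟩ := Pool.Agent.H15.Brouwer.fixed_of_bounded
    (fun p : EuclideanSpace ℝ (Fin d) => G (fun i => h⁻¹ * p i)) hTc R (fun p => by
      obtain ⟨w, hw, -, hw2⟩ := hG1 (fun i => h⁻¹ * p i)
      have h1 := hR (convexHull_mono (hsub w hw) hw2)
      rwa [mem_closedBall_zero_iff] at h1)
  obtain ⟨w, hw, hw1, hw2⟩ := hG1 (fun i => h⁻¹ * p i)
  refine hx2 w hw ?_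
  change Metric.infDist (pt (w 0)) (convexHull ℝ (Set.range fun j => x (w j))) ≤ η
  have hp' : G (fun i => h⁻¹ * p i) = p := hp
  rw [hp'] at hw2
  refine (Metric.infDist_le_dist_of_mem hw2).trans ?_
  rw [EuclideanSpace.dist_eq, Real.sqrt_le_iff]
  refine ⟨hη.le, ?_⟩
  have hco : ∀ i : Fin d, dist ((pt (w 0)) i) (p i) ^ 2 ≤ h ^ 2 := by
    intro i
    have h1 := hw1 i
    have h2 : (pt (w 0)) i - p i = h * ((w 0 i : ℝ) - h⁻¹ * p i) := by
      have h3 : (pt (w 0)) i = h * (w 0 i : ℝ) := rfl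
      rw [h3, mul_sub, ← mul_assoc, mul_inv_cancel₀ hh0.ne', one_mul]
    rw [Real.dist_eq, h2, abs_mul, abs_of_pos hh0]
    have h4 : h * |(w 0 i : ℝ) - h⁻¹ * p i| ≤ h := by
      have := mul_le_mul_of_nonneg_left h1 hh0.le
      linarith
    exact pow_le_pow_left₀ (by positivity) h4 2
  calc ∑ i, dist ((pt (w 0)) i) (p i) ^ 2 ≤ ∑ _i : Fin d, h ^ 2 :=
        Finset.sum_le_sum fun i _ => hco i
    _ = (d : ℝ) * h ^ 2 := by rw [Finset.sum_const, Finset.card_univ, Fintype.card_fin, nsmul_eq_mul]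
    _ ≤ η ^ 2 := by
      rw [← hhη]
      have h5 : (0 : ℝ) ≤ (d : ℝ) := by positivity
      nlinarith [mul_nonneg h5 (sq_nonneg h), mul_nonneg (mul_nonneg h5 h5) (sq_nonneg h), sq_nonneg h]

end Run7.h160.PACH
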